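import Pool.Agent.H654R5.PT.Stm

/-!
# The machine is computable
-/

namespace Pool.Agent.H654R5.PT.CPT

open Pool.Agent.H654R5.PT
open Primrec

section Gen

variable {α β σ : Type} [Primcodable α] [Primcodable β] [Primcodable σ]

omit [Primcodable β] [Primcodable σ] in
theorem rec_eq_foldl (f : σ → β → σ) (z : σ) (l : List β) (n : ℕ) :
    (Nat.rec (motive := fun _ => σ) z
      (fun i s => Option.casesOn (motive := fun _ => σ) (l[i]?) s (fun b => f s b)) n : σ) =
      (l.take n).foldl f z := by
  induction n with
  | zero => rfl
  | succ n ih =>
    show (Option.casesOn (motive := fun _ => σ) (l[n]?) _ _ : σ) = _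
    rw [ih, List.take_add_one, List.foldl_append]
    cases l[n]? <;> rfl

theorem comp_foldl {l : α → List β} {z : α → σ} {f : α → σ → β → σ} (hl : Computable l)
    (hz : Computable z) (hf : Computable (fun x : α × σ × β => f x.1 x.2.1 x.2.2)) :
    Computable (fun a => (l a).foldl (f a) (z a)) := by
  have hstep : Computable₂ (fun (a : α) (x : ℕ × σ) =>
      (Option.casesOn (motive := fun _ => σ) ((l a)[x.1]?) x.2 (fun b => f a x.2 b) : σ)) := by
    refine Computable.option_casesOn (o := fun y : α × (ℕ × σ) => (l y.1)[y.2.1]?)
      (f := fun y => y.2.2) (g := fun y b => f y.1 y.2.2 b) ?_ ?_ ?_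
    · exact Computable.list_getElem?.comp (hl.comp Computable.fst)
        (Computable.fst.comp Computable.snd)
    · exact Computable.snd.comp Computable.snd
    · exact hf.comp (Computable.pair (Computable.fst.comp Computable.fst)
        (Computable.pair (Computable.snd.comp (Computable.snd.comp Computable.fst))
          Computable.snd))
  have h := Computable.nat_rec (Computable.list_length.comp hl) hz hstep
  refine h.of_eq (fun a => ?_)
  have := rec_eq_foldl (f a) (z a) (l a) (l a).length
  rw [List.take_length] at this
  exact this

theorem comp_any {l : α → List β} {p : α → β → Bool} (hl : Computable l)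
    (hp : Computable₂ p) : Computable (fun a => (l a).any (p a)) := by
  have h := comp_foldl (z := fun _ : α => false) (f := fun a s b => s || p a b) hl
    (Computable.const false) (Primrec.or.to_comp.comp (Computable.fst.comp Computable.snd)
      (hp.comp Computable.fst (Computable.snd.comp Computable.snd)))
  refine h.of_eq (fun a => ?_)
  have key : ∀ (m : List β) (s : Bool), m.foldl (fun s b => s || p a b) s = (s || m.any (p a)) := by
    intro m
    induction m with
    | nil => intro s; simp
    | cons b m ih => intro s; rw [List.foldl_cons, ih, List.any_cons, Bool.or_assoc]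
  rw [key, Bool.false_or]

theorem comp_find {l : α → List β} {p : α → β → Bool} (hl : Computable l)
    (hp : Computable₂ p) : Computable (fun a => (l a).find? (p a)) := by
  have hf : Computable (fun x : α × Option β × β =>
      (Option.casesOn (motive := fun _ => Option β) x.2.1 (bif p x.1 x.2.2 then some x.2.2 else none)
        (fun y => some y) : Option β)) := by
    refine Computable.option_casesOn (o := fun x : α × Option β × β => x.2.1)
      (f := fun x => bif p x.1 x.2.2 then some x.2.2 else none) (g := fun _ y => some y) ?_ ?_ ?_
    · exact Computable.fst.comp Computable.snd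
    · exact Computable.cond (hp.comp Computable.fst (Computable.snd.comp Computable.snd))
        (Computable.option_some.comp (Computable.snd.comp Computable.snd)) (Computable.const none)
    · exact Computable.option_some.comp Computable.snd
  have h := comp_foldl (z := fun _ : α => (none : Option β))
    (f := fun a s b => (Option.casesOn (motive := fun _ => Option β) s
      (bif p a b then some b else none) (fun y => some y) : Option β)) hl
    (Computable.const none) hf
  refine h.of_eq (fun a => ?_)
  have key1 : ∀ (m : List β) (y : β), m.foldl (fun (s : Option β) b =>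
      (Option.casesOn (motive := fun _ => Option β) s
      (bif p a b then some b else none) (fun y => some y) : Option β)) (some y) = some y := by
    intro m
    induction m with
    | nil => intro y; rfl
    | cons b m ih => intro y; rw [List.foldl_cons]; exact ih y
  have key : ∀ (m : List β), m.foldl (fun (s : Option β) b =>
      (Option.casesOn (motive := fun _ => Option β) s
      (bif p a b then some b else none) (fun y => some y) : Option β)) none = m.find? (p a) := by
    intro m
    induction m with
    | nil => rfl
    | cons b m ih =>
      rw [List.foldl_cons, List.find?_cons]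
      cases hb : p a b
      · simp only [cond_false]
        exact ih
      · simp only [cond_true]
        exact key1 m b
  exact key (l a)

theorem comp_dec [DecidableEq β] {f g : α → β} (hf : Computable f) (hg : Computable g) :
    Computable (fun a => decide (f a = g a)) := by
  have h : Primrec₂ (fun x y : β => decide (x = y)) := PrimrecRel.decide Primrec.eq
  exact h.to_comp.comp hf hg

theorem comp_and {f g : α → Bool} (hf : Computable f) (hg : Computable g) :
    Computable (fun a => f a && g a) := Primrec.and.to_comp.comp hf hg

theorem comp_or {f g : α → Bool} (hf : Computable f) (hg : Computable g) :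
    Computable (fun a => f a || g a) := Primrec.or.to_comp.comp hf hg

theorem comp_not {f : α → Bool} (hf : Computable f) :
    Computable (fun a => !f a) := Primrec.not.to_comp.comp hf

end Gen

/-! ### Parameters -/

theorem val_eq (N : ℕ) : padicValNat 2 N = Nat.count (fun i => N % 2 ^ (i + 1) = 0) N := by
  rcases Nat.eq_zero_or_pos N with h | h
  · subst h; simp
  · have hv : padicValNat 2 N < N := by
      have h1 : 2 ^ padicValNat 2 N ≤ N := Nat.le_of_dvd h pow_padicValNat_dvd
      exact lt_of_lt_of_le Nat.lt_two_pow_self h1
    rw [Nat.count_eq_card_filter_range]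
    have e : (Finset.range N).filter (fun i => N % 2 ^ (i + 1) = 0) =
        Finset.range (padicValNat 2 N) := by
      ext i
      rw [Finset.mem_filter, Finset.mem_range, Finset.mem_range, ← Nat.dvd_iff_mod_eq_zero,
        padicValNat_dvd_iff_le h.ne']
      omega
    rw [e, Finset.card_range]

theorem prim_gN : Primrec gN := by
  have h1 : Primrec (fun N : ℕ => Nat.count (fun i => N % 2 ^ (i + 1) = 0) N) := by
    refine H544R2.prim_count (p := fun N i => N % 2 ^ (i + 1) = 0) Primrec.id ?_
    exact Primrec.eq.comp (Primrec.nat_mod.comp fst
      (H544R2.nat_pow.comp (Primrec.const 2) (Primrec.succ.comp snd))) (Primrec.const 0)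
  have h2 : Primrec (fun N : ℕ => 2 ^ (Nat.count (fun i => N % 2 ^ (i + 1) = 0) N + 1)) :=
    H544R2.nat_pow.comp (Primrec.const 2) (Primrec.succ.comp h1)
  refine h2.of_eq (fun N => ?_)
  unfold gN
  rw [val_eq]

theorem prim_aa : Primrec aa := by
  unfold aa
  exact Primrec.nat_add.comp (Primrec.nat_mul.comp (Primrec.const 6) Primrec.id)
    (Primrec.const 21)

theorem comp_gI : Computable gI := by
  have hsz : Computable Nat.size := H544R2.nat_size.to_comp
  have hl : Primrec (fun m : ℕ => (List.range (Nat.size m + 1)).map (fun i => 2 ^ (i + 1))) :=
    Primrec.list_map (Primrec.list_range.comp (Primrec.succ.comp H544R2.nat_size))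
      (H544R2.nat_pow.comp (Primrec.const 2) (Primrec.succ.comp snd)).to₂
  have hp : Computable₂ (fun (m g : ℕ) => decide (Nat.size m ≤ g)) := by
    have h : Primrec₂ (fun x y : ℕ => decide (x ≤ y)) := PrimrecRel.decide Primrec.nat_le
    exact h.to_comp.comp (hsz.comp Computable.fst) Computable.snd
  have h := comp_find hl.to_comp hp
  exact Computable.option_getD h (Computable.const 2)

theorem comp_item : Computable item := by
  have hlen : Computable (fun e : List Bool => e.length) := Computable.list_length
  have hg : Computable (fun e : List Bool => 2 ^ gI e.length) :=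
    H544R2.nat_pow.to_comp.comp (Computable.const 2) (comp_gI.comp hlen)
  have hx : Computable (fun e : List Bool => e ++ [true]) :=
    Computable.list_append.comp Computable.id (Computable.const [true])
  have hrep : Primrec (fun n : ℕ => List.replicate n false) := by
    have : Primrec (fun n : ℕ => (List.range n).map (fun _ => false)) :=
      Primrec.list_map Primrec.list_range (Primrec.const false).to₂
    refine this.of_eq (fun n => ?_)
    rw [List.map_const', List.length_range]
  have hn : Computable (fun e : List Bool => 2 ^ gI e.length - (e ++ [true]).length) :=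
    Primrec.nat_sub.to_comp.comp hg (Computable.list_length.comp hx)
  unfold item padTo
  exact Computable.list_append.comp hx (hrep.to_comp.comp hn)

theorem prim_eT : Primrec eT := by
  unfold eT
  refine option_bind Primrec.decode ?_
  have p1 : Primrec (fun x : ℕ × (List Bool × ℕ) => x.2.2) := snd.comp snd
  have p2 : Primrec (fun x : ℕ × (List Bool × ℕ) => x.2.1) := fst.comp snd
  have p3 := H544R2.prim_Vn.comp (Primrec.pair p1 p2)
  refine Primrec.ite (Primrec.eq.comp (option_isSome.comp p3) (Primrec.const true)) ?_
    (Primrec.const none)
  exact option_some.comp p2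

/-- the type of the states -/
abbrev St : Type := List ((ℕ × List Bool) × List Bool)

/-- the step, with parameters -/
def stp (D : ℕ → ℕ × List Bool → Bool) (C : List Bool → List (ℕ × List Bool))
    (t : ℕ → Option (List Bool)) (n : ℕ) (S : St) : St :=
  match t n with
  | none => S
  | some e =>
    if S.any (fun p => decide (p.2 = e) && !D n p.1) then S
    else match (C e).find? (fun c => !D n c && !S.any (fun p => decide (p.1 = c))) with
      | none => S
      | some c => (c, e) :: S

/-- the type of the items of a state -/
abbrev El : Type := (ℕ × List Bool) × List Bool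

/-- the type of the arguments -/
abbrev Qt : Type := (ℕ × St) × List Bool

theorem comp_stp (D : ℕ → ℕ × List Bool → Bool) (C : List Bool → List (ℕ × List Bool))
    (t : ℕ → Option (List Bool)) (hD : Computable (fun x : ℕ × (ℕ × List Bool) => D x.1 x.2))
    (hC : Computable C) (ht : Computable t) :
    Computable (fun x : ℕ × St => stp D C t x.1 x.2) := by
  have hS : Computable (fun y : Qt => y.1.2) := Computable.snd.comp Computable.fst
  have hA1 : Computable (fun q : Qt × El => decide (q.2.2 = q.1.2)) :=
    comp_dec (f := fun q : Qt × El => q.2.2) (g := fun q => q.1.2)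
      (Computable.snd.comp Computable.snd) (Computable.snd.comp Computable.fst)
  have hA2 : Computable (fun q : Qt × El => ((q.1.1.1, q.2.1) : ℕ × (ℕ × List Bool))) :=
    Computable.pair (f := fun q : Qt × El => q.1.1.1) (g := fun q => q.2.1)
      (Computable.fst.comp (Computable.fst.comp Computable.fst))
      (Computable.fst.comp Computable.snd)
  have hA3' := hD.comp hA2
  have hA3 : Computable (fun q : Qt × El => D q.1.1.1 q.2.1) := hA3'
  have hA4 : Computable (fun q : Qt × El => decide (q.2.2 = q.1.2) && !D q.1.1.1 q.2.1) :=
    comp_and hA1 (comp_not hA3)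
  have hA : Computable (fun y : Qt =>
      y.1.2.any (fun p => decide (p.2 = y.2) && !D y.1.1 p.1)) :=
    comp_any (l := fun y : Qt => y.1.2) (p := fun y p => decide (p.2 = y.2) && !D y.1.1 p.1)
      hS hA4
  have hB1 : Computable (fun q : Qt × (ℕ × List Bool) => ((q.1.1.1, q.2) : ℕ × (ℕ × List Bool))) :=
    Computable.pair (f := fun q : Qt × (ℕ × List Bool) => q.1.1.1) (g := fun q => q.2)
      (Computable.fst.comp (Computable.fst.comp Computable.fst)) Computable.snd
  have hB2' := hD.comp hB1
  have hB2 : Computable (fun q : Qt × (ℕ × List Bool) => D q.1.1.1 q.2) := hB2'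
  have hB3 : Computable (fun q : (Qt × (ℕ × List Bool)) × El => decide (q.2.1 = q.1.2)) :=
    comp_dec (f := fun q : (Qt × (ℕ × List Bool)) × El => q.2.1) (g := fun q => q.1.2)
      (Computable.fst.comp Computable.snd) (Computable.snd.comp Computable.fst)
  have hB4 : Computable (fun q : Qt × (ℕ × List Bool) =>
      q.1.1.2.any (fun p => decide (p.1 = q.2))) :=
    comp_any (l := fun q : Qt × (ℕ × List Bool) => q.1.1.2) (p := fun q p => decide (p.1 = q.2))
      (hS.comp Computable.fst) hB3
  have hB5 : Computable (fun q : Qt × (ℕ × List Bool) =>
      !D q.1.1.1 q.2 && !q.1.1.2.any (fun p => decide (p.1 = q.2))) :=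
    comp_and (comp_not hB2) (comp_not hB4)
  have hB : Computable (fun y : Qt =>
      (C y.2).find? (fun c => !D y.1.1 c && !y.1.2.any (fun p => decide (p.1 = c)))) :=
    comp_find (l := fun y : Qt => C y.2)
      (p := fun y c => !D y.1.1 c && !y.1.2.any (fun p => decide (p.1 = c)))
      (hC.comp Computable.snd) hB5
  have hC1 : Computable (fun q : Qt × (ℕ × List Bool) => ((q.2, q.1.2) : El)) :=
    Computable.pair (f := fun q : Qt × (ℕ × List Bool) => q.2) (g := fun q => q.1.2)
      Computable.snd (Computable.snd.comp Computable.fst)
  have hC2 : Computable (fun q : Qt × (ℕ × List Bool) => (((q.2, q.1.2) : El) :: q.1.1.2)) :=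
    Computable.list_cons.comp hC1 (hS.comp Computable.fst)
  have hC' : Computable (fun y : Qt =>
      (Option.casesOn (motive := fun _ => St) ((C y.2).find?
        (fun c => !D y.1.1 c && !y.1.2.any (fun p => decide (p.1 = c)))) y.1.2
        (fun c => (c, y.2) :: y.1.2) : St)) :=
    Computable.option_casesOn (f := fun y : Qt => y.1.2)
      (g := fun y c => (c, y.2) :: y.1.2) hB hS hC2
  have hD' : Computable (fun y : Qt =>
      bif y.1.2.any (fun p => decide (p.2 = y.2) && !D y.1.1 p.1) then y.1.2 else
      (Option.casesOn (motive := fun _ => St) ((C y.2).find?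
        (fun c => !D y.1.1 c && !y.1.2.any (fun p => decide (p.1 = c)))) y.1.2
        (fun c => (c, y.2) :: y.1.2) : St)) :=
    Computable.cond hA hS hC'
  have hE := Computable.option_casesOn (o := fun x : ℕ × St => t x.1) (f := fun x => x.2)
    (g := fun x e => bif x.2.any (fun p => decide (p.2 = e) && !D x.1 p.1) then x.2 else
      (Option.casesOn (motive := fun _ => St) ((C e).find?
        (fun c => !D x.1 c && !x.2.any (fun p => decide (p.1 = c)))) x.2
        (fun c => (c, e) :: x.2) : St))
    (ht.comp Computable.fst) Computable.snd hD'
  refine hE.of_eq (fun x => ?_)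
  unfold stp
  cases t x.1 with
  | none => rfl
  | some e =>
    simp only
    cases x.2.any (fun p => decide (p.2 = e) && !D x.1 p.1) with
    | true => rfl
    | false =>
      simp only [cond_false, Bool.false_eq_true, if_false]
      cases (C e).find?
        (fun c => !D x.1 c && !x.2.any (fun p => decide (p.1 = c))) <;> rfl

/-- iteration -/
def runG (f : ℕ → St → St) : ℕ → St
  | 0 => []
  | n + 1 => f n (runG f n)

theorem comp_runG (f : ℕ → St → St) (hf : Computable (fun x : ℕ × St => f x.1 x.2)) :
    Computable (runG f) := by
  have h := Computable.nat_rec (f := fun n : ℕ => n) (g := fun _ => ([] : St))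
    (h := fun _ x => f x.1 x.2) Computable.id (Computable.const [])
    (hf.comp Computable.snd)
  refine h.of_eq (fun n => ?_)
  induction n with
  | zero => rfl
  | succ n ih =>
    show f n _ = f n (runG f n)
    rw [← ih]

theorem comp_markG (D : ℕ → ℕ × List Bool → Bool) (R : ℕ → St) (I : List Bool → List Bool)
    (cd : ℕ → List Bool → List Bool → Bool) (G A : ℕ → ℕ)
    (hD : Computable (fun x : ℕ × (ℕ × List Bool) => D x.1 x.2)) (hR : Computable R)
    (hI : Computable I)
    (hcd : Computable (fun x : ℕ × List Bool × List Bool => cd x.1 x.2.1 x.2.2))
    (hG : Computable G) (hA : Computable A) :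
    Computable (fun x : ℕ × List Bool =>
      D x.1 (x.2.length, x.2.take (x.2.length - A (G x.2.length))) ||
      (R x.1).any (fun p =>
        decide (p.1 = (x.2.length, x.2.take (x.2.length - A (G x.2.length)))) &&
        cd (G x.2.length) (I p.2) (x.2.drop (x.2.length - A (G x.2.length))))) := by
  have hlen : Computable (fun x : ℕ × List Bool => x.2.length) :=
    Computable.list_length.comp Computable.snd
  have hgN : Computable (fun x : ℕ × List Bool => G x.2.length) := hG.comp hlen
  have hcut : Computable (fun x : ℕ × List Bool => x.2.length - A (G x.2.length)) :=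
    Primrec.nat_sub.to_comp.comp hlen (hA.comp hgN)
  have hcell : Computable (fun x : ℕ × List Bool =>
      ((x.2.length, x.2.take (x.2.length - A (G x.2.length))) : ℕ × List Bool)) :=
    Computable.pair hlen (Primrec.list_take.to_comp.comp hcut Computable.snd)
  have hdrop : Computable (fun x : ℕ × List Bool =>
      x.2.drop (x.2.length - A (G x.2.length))) :=
    Primrec.list_drop.to_comp.comp hcut Computable.snd
  have hp1 : Computable (fun x : ℕ × List Bool =>
      ((x.1, (x.2.length, x.2.take (x.2.length - A (G x.2.length)))) : ℕ × (ℕ × List Bool))) :=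
    Computable.pair (f := fun x : ℕ × List Bool => x.1) Computable.fst hcell
  have hD1 := hD.comp hp1
  refine comp_or hD1 ?_
  refine comp_any (l := fun x : ℕ × List Bool => R x.1)
    (p := fun x p => decide (p.1 = (x.2.length, x.2.take (x.2.length - A (G x.2.length)))) &&
      cd (G x.2.length) (I p.2) (x.2.drop (x.2.length - A (G x.2.length))))
    (hR.comp Computable.fst) ?_
  have he1 : Computable (fun q : (ℕ × List Bool) × El => q.2.1) :=
    Computable.fst.comp Computable.snd
  have he2 := hcell.comp (Computable.fst (α := ℕ × List Bool) (β := El))
  refine comp_and (comp_dec he1 he2) ?_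
  have hi1 : Computable (fun q : (ℕ × List Bool) × El => q.2.2) :=
    Computable.snd.comp Computable.snd
  have hi2 := hI.comp hi1
  have hg1 := hgN.comp (Computable.fst (α := ℕ × List Bool) (β := El))
  have hd1 := hdrop.comp (Computable.fst (α := ℕ × List Bool) (β := El))
  have hq := hcd.comp (Computable.pair hg1 (Computable.pair hi2 hd1))
  exact hq

theorem comp_UnG (V : ℕ → List Bool → Option (List Bool)) (M : ℕ → List Bool → Bool)
    (hV : Computable (fun x : ℕ × List Bool => V x.1 x.2))
    (hM : Computable (fun x : ℕ × List Bool => M x.1 x.2)) :
    Computable (fun x : ℕ × List Bool =>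
      if x.2.take 66 = List.replicate 66 true then V x.1 (x.2.drop 66)
      else if x.2.take 1 = [false] ∧ M x.1 (x.2.drop 1) = true then
        some (false :: false :: x.2.drop 1)
      else none) := by
  have hd : Computable (fun x : ℕ × List Bool => x.2.drop 1) :=
    Primrec.list_drop.to_comp.comp (Computable.const 1) Computable.snd
  have hd66 : Computable (fun x : ℕ × List Bool => x.2.drop 66) :=
    Primrec.list_drop.to_comp.comp (Computable.const 66) Computable.snd
  have ht : Computable (fun x : ℕ × List Bool => x.2.take 1) :=
    Primrec.list_take.to_comp.comp (Computable.const 1) Computable.snd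
  have ht66 : Computable (fun x : ℕ × List Bool => x.2.take 66) :=
    Primrec.list_take.to_comp.comp (Computable.const 66) Computable.snd
  have hV' := hV.comp (Computable.pair (Computable.fst (α := ℕ) (β := List Bool)) hd66)
  have hM' := hM.comp (Computable.pair (Computable.fst (α := ℕ) (β := List Bool)) hd)
  have hc1 : Computable (fun x : ℕ × List Bool =>
      decide (x.2.take 66 = List.replicate 66 true)) :=
    comp_dec ht66 (Computable.const _)
  have hc2 : Computable (fun x : ℕ × List Bool =>
      decide (x.2.take 1 = [false]) && M x.1 (x.2.drop 1)) :=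
    comp_and (comp_dec ht (Computable.const _)) hM'
  have ho : Computable (fun x : ℕ × List Bool => some (false :: false :: x.2.drop 1)) :=
    Computable.option_some.comp (Computable.list_cons.comp (Computable.const false)
      (Computable.list_cons.comp (Computable.const false) hd))
  have h := Computable.cond hc1 hV' (Computable.cond hc2 ho (Computable.const none))
  refine h.of_eq (fun x => ?_)
  by_cases e1 : x.2.take 66 = List.replicate 66 true
  · rw [if_pos e1, decide_eq_true e1, cond_true]
  · rw [if_neg e1, decide_eq_false e1, cond_false]
    by_cases e2 : x.2.take 1 = [false]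
    · rw [decide_eq_true e2, Bool.true_and]
      cases e3 : M x.1 (x.2.drop 1)
      · rw [if_neg (by simp), cond_false]
      · rw [if_pos ⟨e2, rfl⟩, cond_true]
    · rw [if_neg (fun h => e2 h.1), decide_eq_false e2, Bool.false_and, cond_false]

theorem run_eq (a t : ℕ → Option (List Bool)) (n : ℕ) :
    runG (stp (deadB a) cands t) n = run a t n := by
  induction n with
  | zero => rfl
  | succ n ih =>
    show stp (deadB a) cands t n (runG (stp (deadB a) cands t) n) = stepS a t n (run a t n)
    rw [ih]
    rfl

theorem CPT_proof (h1 : S_CP1) (h2 : S_CP2) (h3 : S_CP3) : S_CPT := by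
  have hs := comp_stp (deadB eA) cands eT h3 h1 prim_eT.to_comp
  have hr : Computable (fun n : ℕ => run eA eT n) :=
    (comp_runG (stp (deadB eA) cands eT) hs).of_eq (fun n => run_eq eA eT n)
  have hm := comp_markG (deadB eA) (fun n => run eA eT n) item code gN aa h3 hr comp_item h2
    prim_gN.to_comp prim_aa.to_comp
  exact comp_UnG H544R2.Vn (markB eA eT) H544R2.prim_Vn.to_comp hm

end Pool.Agent.H654R5.PT.CPT
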